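import Mathlib
import Pool.Agent.Lib.MP_e9f532_co.Dfc.LowerMain
import Pool.Agent.Lib.MP_e9f532_co.Nl.Upper

/-!
# Distinct pairwise intersections in an antichain: the deficiency up to logarithms

`f(n)` is the maximum number of distinct pairwise intersections in an antichain of subsets of an
`n`-set. We prove `c (n / log n) 2^(n/2) ≤ 2^n - f(n) ≤ C n log n 2^(n/2)` for all `n ≥ 2`.

Upper bound for `f(n)` (complement form): let `M` be an antichain, `D` its down-closure, and let
`m` be the number of sets that are not the union of two different members. Then `D` consists of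
such sets. If `m ≤ n 2^(n/2)`, the Kruskal-Katona theorem in LYM form inside a cube of dimension
`z`, `2^z` of order `m`, gives `|D| ≥ 2^(z-1) ∑_{j ≥ z/2} m_j / C(z,j)`, and the weights
`λ^{|P|}`, averaged over `λ` near `1` with Bernstein polynomials, show that the sum is at least
`c / log n`.

Lower bound for `f(n)`: two halves `X`, `Y` of the ground set; the main members are `A ∪ τ` with
`A ⊆ X` and `τ` a pair of points of `Y` from a matching of `K = O(log n)` pairs that belongs to
the size `|A|` (and conversely). The sets that are not covered in this way, because they contain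
no pair of the right matching, are covered by a random system of transversal halves which carries
only a negligible number of sets.
-/

open Finset

namespace Pool.Agent.Results.MP_e9f532_co.DeficiencyUpToLogs

/-! ### The extremal function -/

/-- The family of all sets that occur as the intersection of two different members. -/
def inters {V : Type} [DecidableEq V] (A : Finset (Finset V)) : Finset (Finset V) :=
  A.offDiag.image (fun p => p.1 ∩ p.2)

/-- `f(n)`: the maximum of `|inters A|` over all antichains `A` of subsets of an `n`-set. -/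
noncomputable def f (n : ℕ) : ℕ :=
  sSup {m : ℕ | ∃ A : Finset (Finset (Fin n)),
    IsAntichain (· ⊆ ·) (A : Set (Finset (Fin n))) ∧ m = (inters A).card}

lemma f_bdd (n : ℕ) : BddAbove {m : ℕ | ∃ A : Finset (Finset (Fin n)),
    IsAntichain (· ⊆ ·) (A : Set (Finset (Fin n))) ∧ m = (inters A).card} := by
  refine ⟨Fintype.card (Finset (Fin n)), ?_⟩
  rintro m ⟨A, _, rfl⟩
  exact Finset.card_le_univ _

lemma le_f {n : ℕ} {A : Finset (Finset (Fin n))}
    (hA : IsAntichain (· ⊆ ·) (A : Set (Finset (Fin n)))) : (inters A).card ≤ f n :=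
  le_csSup (f_bdd n) ⟨A, hA, rfl⟩

lemma exists_f (n : ℕ) : ∃ A : Finset (Finset (Fin n)),
    IsAntichain (· ⊆ ·) (A : Set (Finset (Fin n))) ∧ (inters A).card = f n := by
  have hne : {m : ℕ | ∃ A : Finset (Finset (Fin n)),
      IsAntichain (· ⊆ ·) (A : Set (Finset (Fin n))) ∧ m = (inters A).card}.Nonempty :=
    ⟨_, ∅, by simp, rfl⟩
  obtain ⟨A, hA, h⟩ := Nat.sSup_mem hne (f_bdd n)
  exact ⟨A, hA, h.symm⟩

/-- The complements of an antichain form an antichain with as many unions as intersections. -/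
lemma compl_family {n : ℕ} (A : Finset (Finset (Fin n)))
    (hA : IsAntichain (· ⊆ ·) (A : Set (Finset (Fin n)))) :
    ∃ M : Finset (Finset (Fin n)), IsAntichain (· ⊆ ·) (M : Set (Finset (Fin n))) ∧
      (Pool.Agent.Lib.MP_e9f532_co.Dfc.unions M).card = (inters A).card := by
  classical
  refine ⟨A.image (fun Q => Qᶜ), ?_, ?_⟩
  · intro B hB B' hB' hne hsub
    have hB1 : B ∈ A.image (fun Q => Qᶜ) := by exact_mod_cast hB
    have hB1' : B' ∈ A.image (fun Q => Qᶜ) := by exact_mod_cast hB'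
    rw [mem_image] at hB1 hB1'
    obtain ⟨Q, hQ, rfl⟩ := hB1
    obtain ⟨Q', hQ', rfl⟩ := hB1'
    have h1 : Q' ⊆ Q := Finset.compl_subset_compl.1 hsub
    have h2 : Q' ≠ Q := fun h => hne (by rw [h])
    exact hA (by exact_mod_cast hQ') (by exact_mod_cast hQ) h2 h1
  · have h1 : Pool.Agent.Lib.MP_e9f532_co.Dfc.unions (A.image (fun Q => Qᶜ)) =
        (inters A).image (fun D => Dᶜ) := by
      ext D
      simp only [Pool.Agent.Lib.MP_e9f532_co.Dfc.unions, inters, mem_image, mem_offDiag,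
        Prod.exists]
      constructor
      · rintro ⟨P, P', ⟨⟨Q, hQ, rfl⟩, ⟨Q', hQ', rfl⟩, hne⟩, rfl⟩
        exact ⟨Q ∩ Q', ⟨Q, Q', ⟨hQ, hQ', fun h => hne (by rw [h])⟩, rfl⟩,
          Finset.compl_inter _ _⟩
      · rintro ⟨_, ⟨Q, Q', ⟨hQ, hQ', hne⟩, rfl⟩, rfl⟩
        exact ⟨Qᶜ, Q'ᶜ, ⟨⟨Q, hQ, rfl⟩, ⟨Q', hQ', rfl⟩, fun h => hne (compl_injective h)⟩,
          (Finset.compl_inter _ _).symm⟩
    rw [h1, Finset.card_image_of_injective _ compl_injective]

/-- The antichain has few uncovered sets. -/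
lemma covered_count {n : ℕ} (Fam : Finset (Finset (Fin n)))
    (hFam : ∀ Q ∈ Fam, ∀ Q' ∈ Fam, Q ⊆ Q' → Q = Q') (E : Finset (Finset (Fin n)))
    (hE : ∀ D : Finset (Fin n), D ∉ E → ∃ Q ∈ Fam, ∃ Q' ∈ Fam, Q ≠ Q' ∧ Q ∪ Q' = D) :
    (2 : ℝ) ^ n - f n ≤ E.card := by
  classical
  set A : Finset (Finset (Fin n)) := Fam.image (fun Q => Qᶜ) with hA
  have hanti : IsAntichain (· ⊆ ·) (A : Set (Finset (Fin n))) := by
    intro B hB B' hB' hne hsub
    have hB1 : B ∈ A := by exact_mod_cast hB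
    have hB1' : B' ∈ A := by exact_mod_cast hB'
    rw [hA, mem_image] at hB1 hB1'
    obtain ⟨Q, hQ, rfl⟩ := hB1
    obtain ⟨Q', hQ', rfl⟩ := hB1'
    apply hne
    have h1 : Q' ⊆ Q := Finset.compl_subset_compl.1 hsub
    rw [hFam Q' hQ' Q hQ h1]
  have hsub : (Eᶜ).image (fun D => Dᶜ) ⊆ inters A := by
    intro B hB
    rw [mem_image] at hB
    obtain ⟨D, hD, rfl⟩ := hB
    rw [mem_compl] at hD
    obtain ⟨Q, hQ, Q', hQ', hne, hun⟩ := hE D hD
    simp only [inters, mem_image, mem_offDiag]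
    refine ⟨(Qᶜ, Q'ᶜ), ⟨?_, ?_, ?_⟩, ?_⟩
    · rw [hA, mem_image]; exact ⟨Q, hQ, rfl⟩
    · rw [hA, mem_image]; exact ⟨Q', hQ', rfl⟩
    · intro hcon
      exact hne (compl_injective hcon)
    · rw [← Finset.compl_union, hun]
  have h1 := Finset.card_le_card hsub
  rw [Finset.card_image_of_injective _ compl_injective, Finset.card_compl] at h1
  simp only [Fintype.card_finset, Fintype.card_fin] at h1
  have h2 := le_f hanti
  have h3 : 2 ^ n ≤ f n + E.card := by omega
  have h4 : ((2 ^ n : ℕ) : ℝ) ≤ ((f n + E.card : ℕ) : ℝ) := by exact_mod_cast h3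
  push_cast at h4
  linarith

/-- **Main theorem.** `c (n / log n) 2^(n/2) ≤ 2^n - f(n) ≤ C n log n 2^(n/2)` for `n ≥ 2`. -/
theorem result : ∃ c C : ℝ, 0 < c ∧ ∀ n : ℕ, 2 ≤ n →
    c * (n / Real.log n) * (Real.sqrt 2) ^ n ≤ (2 : ℝ) ^ n - f n ∧
    (2 : ℝ) ^ n - f n ≤ C * (n * Real.log n) * (Real.sqrt 2) ^ n := by
  obtain ⟨c, hc, hlow⟩ := Pool.Agent.Lib.MP_e9f532_co.Dfc.lower_main
  obtain ⟨C, hup⟩ := Pool.Agent.Lib.MP_e9f532_co.Nl.upper_main
  refine ⟨c, C, hc, fun n hn => ⟨?_, ?_⟩⟩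
  · obtain ⟨A, hA, hfA⟩ := exists_f n
    obtain ⟨M, hM, hcard⟩ := compl_family A hA
    have h1 := hlow n hn M hM
    rw [hcard, hfA] at h1
    exact h1
  · obtain ⟨M, E, hM, hE, hcov⟩ := hup n hn
    exact (covered_count M hM E hcov).trans hE

end Pool.Agent.Results.MP_e9f532_co.DeficiencyUpToLogs
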